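import Pool.Agent.Helper81.LT.Mod

/-!
MP_c20641_lc, packet STEP2: thinning a rich definable set so that a definable equivalence relation
becomes canonical on it.
-/

namespace Pool.Agent.Helper67.LT

open FirstOrder Language Pool.Agent.Helper81.LT

attribute [local instance] stdStr

section

variable {M : Type} [CommSemiring M] [LinearOrder M] {α : Type}

theorem dfn_bt {fa fb fi fx : (α → M) → M} (ha : Tm fa) (hb : Tm fb) (hi : Tm fi) (hx : Tm fx) :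
    Dfn (fun v => Bt (fa v) (fb v) (fi v) (fx v)) := by
  refine Dfn.and (Dfn.lt hx (Tm.one.add ((hi.add Tm.one).mul hb))) ?_
  refine Dfn.ex (P := fun v q => fa v = q * (1 + (fi v + 1) * fb v) + fx v) ?_
  have up : ∀ {f : (α → M) → M}, Tm f →
      Tm (fun u : α ⊕ Unit → M => f (fun a => u (Sum.inl a))) := fun hf =>
    hf.subst fun a => Tm.var (Sum.inl a)
  exact Dfn.eq (up ha) (((Tm.var (Sum.inr ())).mul
    (Tm.one.add (((up hi).add Tm.one).mul (up hb)))).add (up hx))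

end

section

variable {Λ : Type} [Lattice Λ] [BoundedOrder Λ] {M : Type} [CommSemiring M] [LinearOrder M]

/-- `(a, b)` codes an isometric map `[0, n) → D` on which `Θ` is canonical -/
def Phi (t : M → M → Λ) (D : M → Prop) (Θ : Setoid M) (s : Λ) (n : M) : Prop :=
  ∃ a b : M, (∀ i, i < n → ∃ u, D u ∧ Bt a b i u) ∧
    ∀ i, i < n → ∀ j, j < n → ∀ u v, Bt a b i u → Bt a b j v →
      ((∀ x : Λ, x ≤ t u v ↔ x ≤ t i j) ∧ (Θ u v ↔ s ≤ t u v))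

theorem dfn_phi [Finite Λ] {t : M → M → Λ} (ht : ∀ x : Λ, Dfn (fun v : Fin 2 → M =>
    x ≤ t (v 0) (v 1))) {D : M → Prop} (hD : DefS D) {Θ : Setoid M} (hΘ : DefE Θ) (s : Λ) :
    Dfn (fun v : Unit → M => Phi t D Θ s (v ())) := by
  unfold Phi
  refine Dfn.ex (P := fun v a => ∃ b : M, (∀ i, i < v () → ∃ u, D u ∧ Bt a b i u) ∧
    ∀ i, i < v () → ∀ j, j < v () → ∀ u w, Bt a b i u → Bt a b j w →
      ((∀ x : Λ, x ≤ t u w ↔ x ≤ t i j) ∧ (Θ u w ↔ s ≤ t u w))) ?_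
  refine Dfn.ex (P := fun (v : Unit ⊕ Unit → M) b =>
    (∀ i, i < v (Sum.inl ()) → ∃ u, D u ∧ Bt (v (Sum.inr ())) b i u) ∧
    ∀ i, i < v (Sum.inl ()) → ∀ j, j < v (Sum.inl ()) → ∀ u w, Bt (v (Sum.inr ())) b i u →
      Bt (v (Sum.inr ())) b j w →
      ((∀ x : Λ, x ≤ t u w ↔ x ≤ t i j) ∧ (Θ u w ↔ s ≤ t u w))) ?_
  refine Dfn.and ?_ ?_
  · refine Dfn.ball (P := fun (v : (Unit ⊕ Unit) ⊕ Unit → M) i =>
      ∃ u, D u ∧ Bt (v (Sum.inl (Sum.inr ()))) (v (Sum.inr ())) i u)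
      (f := fun v => v (Sum.inl (Sum.inl ()))) (Tm.var _) ?_
    refine Dfn.ex (P := fun (v : ((Unit ⊕ Unit) ⊕ Unit) ⊕ Unit → M) u =>
      D u ∧ Bt (v (Sum.inl (Sum.inl (Sum.inr ())))) (v (Sum.inl (Sum.inr ()))) (v (Sum.inr ())) u) ?_
    refine Dfn.and (Dfn.app₁ (R := D) hD (Tm.var (Sum.inr ()))) ?_
    exact dfn_bt (Tm.var _) (Tm.var _) (Tm.var _) (Tm.var _)
  · refine Dfn.ball (P := fun (v : (Unit ⊕ Unit) ⊕ Unit → M) i =>
      ∀ j, j < v (Sum.inl (Sum.inl ())) → ∀ u w, Bt (v (Sum.inl (Sum.inr ()))) (v (Sum.inr ())) i u →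
      Bt (v (Sum.inl (Sum.inr ()))) (v (Sum.inr ())) j w →
      ((∀ x : Λ, x ≤ t u w ↔ x ≤ t i j) ∧ (Θ u w ↔ s ≤ t u w)))
      (f := fun v => v (Sum.inl (Sum.inl ()))) (Tm.var _) ?_
    refine Dfn.ball (P := fun (v : ((Unit ⊕ Unit) ⊕ Unit) ⊕ Unit → M) j =>
      ∀ u w, Bt (v (Sum.inl (Sum.inl (Sum.inr ())))) (v (Sum.inl (Sum.inr ()))) (v (Sum.inr ())) u →
      Bt (v (Sum.inl (Sum.inl (Sum.inr ())))) (v (Sum.inl (Sum.inr ()))) j w →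
      ((∀ x : Λ, x ≤ t u w ↔ x ≤ t (v (Sum.inr ())) j) ∧ (Θ u w ↔ s ≤ t u w)))
      (f := fun v => v (Sum.inl (Sum.inl (Sum.inl ())))) (Tm.var _) ?_
    refine Dfn.all (P := fun (v : (((Unit ⊕ Unit) ⊕ Unit) ⊕ Unit) ⊕ Unit → M) u =>
      ∀ w, Bt (v (Sum.inl (Sum.inl (Sum.inl (Sum.inr ()))))) (v (Sum.inl (Sum.inl (Sum.inr ()))))
        (v (Sum.inl (Sum.inr ()))) u →
      Bt (v (Sum.inl (Sum.inl (Sum.inl (Sum.inr ()))))) (v (Sum.inl (Sum.inl (Sum.inr ()))))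
        (v (Sum.inr ())) w →
      ((∀ x : Λ, x ≤ t u w ↔ x ≤ t (v (Sum.inl (Sum.inr ()))) (v (Sum.inr ()))) ∧
        (Θ u w ↔ s ≤ t u w))) ?_
    refine Dfn.all (P := fun (v : ((((Unit ⊕ Unit) ⊕ Unit) ⊕ Unit) ⊕ Unit) ⊕ Unit → M) w =>
      Bt (v (Sum.inl (Sum.inl (Sum.inl (Sum.inl (Sum.inr ()))))))
        (v (Sum.inl (Sum.inl (Sum.inl (Sum.inr ()))))) (v (Sum.inl (Sum.inl (Sum.inr ()))))
        (v (Sum.inr ())) →
      Bt (v (Sum.inl (Sum.inl (Sum.inl (Sum.inl (Sum.inr ()))))))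
        (v (Sum.inl (Sum.inl (Sum.inl (Sum.inr ()))))) (v (Sum.inl (Sum.inr ()))) w →
      ((∀ x : Λ, x ≤ t (v (Sum.inr ())) w ↔ x ≤ t (v (Sum.inl (Sum.inl (Sum.inr ()))))
        (v (Sum.inl (Sum.inr ())))) ∧ (Θ (v (Sum.inr ())) w ↔ s ≤ t (v (Sum.inr ())) w))) ?_
    refine Dfn.imp (dfn_bt (Tm.var _) (Tm.var _) (Tm.var _) (Tm.var _)) ?_
    refine Dfn.imp (dfn_bt (Tm.var _) (Tm.var _) (Tm.var _) (Tm.var _)) ?_
    refine Dfn.and (Dfn.allFin fun x => ?_) ?_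
    · exact Dfn.iff (Dfn.app₂ (R := fun a b => x ≤ t a b) (ht x) (Tm.var _) (Tm.var _))
        (Dfn.app₂ (R := fun a b => x ≤ t a b) (ht x) (Tm.var _) (Tm.var _))
    · exact Dfn.iff (Dfn.app₂ (R := fun a b => Θ a b) hΘ (Tm.var _) (Tm.var _))
        (Dfn.app₂ (R := fun a b => s ≤ t a b) (ht s) (Tm.var _) (Tm.var _))

/-- the finite version -/
theorem fin_step {Λ : Type} [Lattice Λ] [BoundedOrder Λ] (hT : THMS Λ) {M : Type} [CommSemiring M]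
    [LinearOrder M] [IsStrictOrderedRing M] {t : M → M → Λ} (ht : UnivT t) {D : M → Prop}
    (hrich : Rich t D) (Θ : Setoid M) (n : ℕ) :
    ∃ (s : Λ) (f : ℕ → M), (∀ i < n, D (f i)) ∧ ∀ i < n, ∀ j < n,
      t (f i) (f j) = t i j ∧ (Θ (f i) (f j) ↔ s ≤ t (i : M) (j : M)) := by
  classical
  let S : Sp Λ :=
    { A := Fin n
      fin := inferInstance
      t := fun i j => t ((i : ℕ) : M) ((j : ℕ) : M)
      refl := fun a => ht.refl _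
      symm := fun a b => ht.symm _ _
      tri := fun a b c => ht.tri _ _ _ }
  have hS : Sep S := by
    intro a b hab
    have h := ht.sep _ _ hab
    exact Fin.ext (Nat.cast_injective h)
  obtain ⟨T, hTs, hT2⟩ := hT S hS
  obtain ⟨g, hg⟩ := ht.univ T hTs
  obtain ⟨N, hN⟩ : ∃ N : ℕ, ∀ a : T.A, g a < N := by
    obtain ⟨B, hB⟩ := (Set.finite_range g).bddAbove
    exact ⟨B + 1, fun a => Nat.lt_succ_of_le (hB ⟨a, rfl⟩)⟩
  obtain ⟨f', hf1, hf2⟩ := hrich N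
  obtain ⟨φ, s, hφ, hs⟩ := hT2 (Setoid.comap (fun a => f' (g a)) Θ)
  refine ⟨s, fun i => if h : i < n then f' (g (φ ⟨i, h⟩)) else 0, ?_, ?_⟩
  · intro i hi
    simp only [hi, dif_pos]
    exact hf1 _ (hN _)
  · intro i hi j hj
    simp only [hi, hj, dif_pos]
    refine ⟨?_, ?_⟩
    · rw [hf2 _ (hN _) _ (hN _), hg]
      exact hφ ⟨i, hi⟩ ⟨j, hj⟩
    · exact hs ⟨i, hi⟩ ⟨j, hj⟩

end

theorem step2 (hO : OVER) (hU : BTU) (hβ : BETA) : STEP2 := by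
  intro Λ _ _ _ hThm M _ _ _ _ hns t ht D hD hrich Θ hΘ
  classical
  obtain ⟨hU1, -, hU3⟩ := hU M
  -- one `s` works for all standard `n`
  obtain ⟨s, hs⟩ : ∃ s : Λ, ∀ n : ℕ, ∃ f : ℕ → M, (∀ i < n, D (f i)) ∧ ∀ i < n, ∀ j < n,
      t (f i) (f j) = t i j ∧ (Θ (f i) (f j) ↔ s ≤ t (i : M) (j : M)) := by
    by_contra hcon
    push Not at hcon
    choose nn hnn using hcon
    obtain ⟨N, hN⟩ : ∃ N : ℕ, ∀ s : Λ, nn s ≤ N := by
      obtain ⟨B, hB⟩ := (Set.finite_range nn).bddAbove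
      exact ⟨B, fun a => hB ⟨a, rfl⟩⟩
    obtain ⟨s, f, h1, h2⟩ := fin_step hThm ht hrich Θ N
    obtain ⟨i, hi, j, hj, h⟩ := hnn s f fun i hi => h1 i (lt_of_lt_of_le hi (hN s))
    have h3 := h2 i (lt_of_lt_of_le hi (hN s)) j (lt_of_lt_of_le hj (hN s))
    rcases h h3.1 with h4 | h4
    · exact h4.2 (h3.2.1 h4.1)
    · exact h4.1 (h3.2.2 h4.2)
  have hΦ : ∀ n : ℕ, Phi t D Θ s (n : M) := by
    intro n
    obtain ⟨f, h1, h2⟩ := hs n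
    obtain ⟨a, b, hab⟩ := hβ M n f
    refine ⟨a, b, ?_, ?_⟩
    · intro i hi
      obtain ⟨k, hk, rfl⟩ := hU3 n i hi
      exact ⟨f k, h1 k hk, hab k hk⟩
    · intro i hi j hj u v hu hv
      obtain ⟨k, hk, rfl⟩ := hU3 n i hi
      obtain ⟨l, hl, rfl⟩ := hU3 n j hj
      have e1 := hU1 _ _ _ _ _ hu (hab k hk)
      have e2 := hU1 _ _ _ _ _ hv (hab l hl)
      subst e1
      subst e2
      obtain ⟨h3, h4⟩ := h2 k hk l hl
      refine ⟨fun x => by rw [h3], ?_⟩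
      rw [h3]
      exact h4
  obtain ⟨n, hn, a, b, h1, h2⟩ := (hO M).2 _ (dfn_phi ht.dfn hD hΘ s) hns hΦ
  refine ⟨fun u => ∃ i, i < n ∧ Bt a b i u, ?_, ?_, ?_, s, ?_⟩
  · rintro u ⟨i, hi, hu⟩
    obtain ⟨u', hu', hu2⟩ := h1 i hi
    rw [hU1 _ _ _ _ _ hu hu2]
    exact hu'
  · refine Dfn.bex (P := fun (v : Unit → M) i => Bt a b i (v ())) (f := fun _ => n) (Tm.par n) ?_
    exact dfn_bt (Tm.par a) (Tm.par b) (Tm.var _) (Tm.var _)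
  · intro k
    choose f hf using fun i : ℕ => h1 (i : M) (hn i)
    refine ⟨f, fun i _ => ⟨i, hn i, (hf i).2⟩, fun i _ j _ => ?_⟩
    exact eq_of_forall_le_iff (h2 i (hn i) j (hn j) _ _ (hf i).2 (hf j).2).1
  · rintro u v ⟨i, hi, hu⟩ ⟨j, hj, hv⟩
    exact (h2 i hi j hj u v hu hv).2

end Pool.Agent.Helper67.LT
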